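import Pool.Agent.L5helper31.TG.Defs2
import Pool.Agent.L5helper26.TG.Bary
import Pool.Agent.TH984.GB.Simplex

/-!
# All polytopes of the fans of projective space: bounded, barycentre zero, volume
-/

set_option autoImplicit false

open MeasureTheory Finset

namespace Pool.Agent.L5helper31.TG

namespace PnAll

/-- the real matrix with the rows `M i` -/
noncomputable def rm {n : ℕ} (M : Fin n → (Fin n → ℤ)) : Matrix (Fin n) (Fin n) ℝ :=
  (Matrix.of M).map (Int.cast : ℤ → ℝ)

lemma rm_mulVec {n : ℕ} (M : Fin n → (Fin n → ℤ)) (x : Fin n → ℝ) (i : Fin n) :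
    (rm M).mulVec x i = dot (M i) x := by
  simp [rm, Matrix.mulVec, dotProduct, dot]

lemma det_rm {n : ℕ} (M : Fin n → (Fin n → ℤ)) : (rm M).det = (((Matrix.of M).det : ℤ) : ℝ) := by
  unfold rm
  exact (Int.cast_det (Matrix.of M)).symm

/-- the polytope in the coordinates `y i = ⟨M i, x⟩` -/
def SS (n : ℕ) : Set (Fin n → ℝ) := {y | (∀ i, -1 ≤ y i) ∧ ∑ i, y i ≤ 1}

lemma dot_neg_sum {n : ℕ} (M : Fin n → (Fin n → ℤ)) (x : Fin n → ℝ) :
    dot (-∑ i, M i) x = -∑ i, dot (M i) x := by
  unfold dot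
  have h5 : ∀ k : Fin n, (((-∑ i : Fin n, M i : Fin n → ℤ) k : ℤ) : ℝ) =
      -∑ i : Fin n, ((M i k : ℤ) : ℝ) := by
    intro k
    rw [Pi.neg_apply, Finset.sum_apply, Int.cast_neg, Int.cast_sum]
  simp only [h5, neg_mul, Finset.sum_mul, Finset.sum_neg_distrib]
  rw [Finset.sum_comm]

lemma poly_eq {n : ℕ} (M : Fin n → (Fin n → ℤ)) :
    polytope (pnL M) = (Matrix.toLin' (rm M)) ⁻¹' SS n := by
  ext x
  simp only [Set.mem_preimage, SS, Set.mem_ofPred_eq, Matrix.toLin'_apply, rm_mulVec]
  constructor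
  · intro h
    refine ⟨fun i => h (M i) ?_, ?_⟩
    · exact Finset.mem_insert_of_mem (Finset.mem_image_of_mem _ (mem_univ i))
    · have := h (-∑ i, M i) (Finset.mem_insert_self _ _)
      rw [dot_neg_sum] at this
      linarith
  · rintro ⟨h1, h2⟩ l hl
    rcases Finset.mem_insert.mp hl with rfl | hl
    · rw [dot_neg_sum]; linarith
    · obtain ⟨i, _, rfl⟩ := Finset.mem_image.mp hl
      exact h1 i

lemma SS_upper {n : ℕ} {y : Fin n → ℝ} (hy : y ∈ SS n) (i : Fin n) : |y i| ≤ n + 1 := by
  obtain ⟨h1, h2⟩ := hy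
  have hn : (0 : ℝ) ≤ n := Nat.cast_nonneg n
  rw [abs_le]
  refine ⟨by linarith [h1 i], ?_⟩
  have h3 : ∑ k : Fin n, (y k + 1) ≤ 1 + n := by
    rw [Finset.sum_add_distrib]
    simp only [Finset.sum_const, card_univ, Fintype.card_fin, nsmul_eq_mul, mul_one]
    linarith
  have h4 : y i + 1 ≤ ∑ k : Fin n, (y k + 1) :=
    Finset.single_le_sum (f := fun k : Fin n => y k + 1) (fun k _ => by linarith [h1 k])
      (mem_univ i)
  linarith

lemma SS_compact (n : ℕ) : IsCompact (SS n) := by
  refine Metric.isCompact_of_isClosed_isBounded ?_ ?_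
  · have : SS n = (⋂ i, {y : Fin n → ℝ | -1 ≤ y i}) ∩ {y | ∑ i, y i ≤ 1} := by
      ext y; simp [SS]
    rw [this]
    refine IsClosed.inter (isClosed_iInter fun i => ?_) ?_
    · exact isClosed_le continuous_const (continuous_apply i)
    · exact isClosed_le (by fun_prop) continuous_const
  · rw [isBounded_iff_forall_norm_le]
    refine ⟨n + 1, fun x hx => ?_⟩
    rw [pi_norm_le_iff_of_nonneg (by positivity)]
    intro i
    exact SS_upper hx i

lemma SS_vol (n : ℕ) : volume (SS n) = ENNReal.ofReal (((n : ℝ) + 1) ^ n / n.factorial) := by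
  have h : SS n = (fun y : Fin n → ℝ => y + 1) ⁻¹' Pool.Agent.TH984.GBS.Sc n ((n : ℝ) + 1) := by
    ext y
    simp only [SS, Pool.Agent.TH984.GBS.Sc, Set.mem_preimage, Set.mem_ofPred_eq, Pi.add_apply,
      Pi.one_apply, Finset.sum_add_distrib, Finset.sum_const, card_univ, Fintype.card_fin,
      nsmul_eq_mul, mul_one]
    constructor
    · rintro ⟨h1, h2⟩
      exact ⟨fun i => by linarith [h1 i], by linarith⟩
    · rintro ⟨h1, h2⟩
      exact ⟨fun i => by linarith [h1 i], by linarith⟩
  rw [h, measure_preimage_add_right, Pool.Agent.TH984.GBS.vol_Sc n _ (by positivity)]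

/-- the involution which replaces `y i` by the negative of the sum -/
noncomputable def inv {n : ℕ} (i : Fin n) : (Fin n → ℝ) →ₗ[ℝ] (Fin n → ℝ) :=
  LinearMap.pi fun k => if k = i then -∑ j, LinearMap.proj j else LinearMap.proj k

lemma inv_apply {n : ℕ} (i : Fin n) (y : Fin n → ℝ) (k : Fin n) :
    inv i y k = if k = i then -∑ j, y j else y k := by
  unfold inv
  rw [LinearMap.pi_apply]
  split_ifs
  · simp [LinearMap.sum_apply]
  · simp

lemma sum_inv {n : ℕ} (i : Fin n) (y : Fin n → ℝ) : ∑ k, inv i y k = -y i := by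
  have h1 : ∑ k, inv i y k = inv i y i + ∑ k ∈ univ.erase i, inv i y k :=
    (Finset.add_sum_erase _ _ (mem_univ i)).symm
  have h2 : ∑ k, y k = y i + ∑ k ∈ univ.erase i, y k :=
    (Finset.add_sum_erase _ _ (mem_univ i)).symm
  have h3 : ∑ k ∈ univ.erase i, inv i y k = ∑ k ∈ univ.erase i, y k := by
    refine Finset.sum_congr rfl fun k hk => ?_
    rw [inv_apply, if_neg (Finset.ne_of_mem_erase hk)]
  rw [h1, h3, inv_apply, if_pos rfl]
  linarith

lemma inv_inv' {n : ℕ} (i : Fin n) (y : Fin n → ℝ) : inv i (inv i y) = y := by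
  ext k
  rw [inv_apply]
  split_ifs with h
  · rw [sum_inv, h]; ring
  · rw [inv_apply, if_neg h]

lemma inv_SS {n : ℕ} (i : Fin n) (y : Fin n → ℝ) (hy : y ∈ SS n) : inv i y ∈ SS n := by
  obtain ⟨h1, h2⟩ := hy
  refine ⟨fun k => ?_, ?_⟩
  · rw [inv_apply]
    split_ifs
    · linarith
    · exact h1 k
  · rw [sum_inv]; linarith [h1 i]

end PnAll

open PnAll in
theorem pn_all {n : ℕ} (hn : 1 ≤ n) (M : Fin n → (Fin n → ℤ)) (hd : |(Matrix.of M).det| = 1) :
    (0 : Fin n → ℤ) ∉ pnL M ∧ Bornology.IsBounded (polytope (pnL M)) ∧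
      (∀ i, ∫ x in polytope (pnL M), x i = 0) ∧
        (n.factorial : ℝ) * volume.real (polytope (pnL M)) = ((n : ℝ) + 1) ^ n := by
  have hdet0 : (Matrix.of M).det ≠ 0 := by
    intro h; rw [h] at hd; norm_num at hd
  have habs : |(rm M).det| = 1 := by
    rw [det_rm]
    rw [← Int.cast_abs, hd]
    norm_num
  have hne : (rm M).det ≠ 0 := by
    intro h; rw [h] at habs; norm_num at habs
  have hu : IsUnit (rm M).det := isUnit_iff_ne_zero.mpr hne
  have hB1 : (rm M)⁻¹ * rm M = 1 := Matrix.nonsing_inv_mul _ hu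
  have hB2 : rm M * (rm M)⁻¹ = 1 := Matrix.mul_nonsing_inv _ hu
  have hT1 : ∀ x, (rm M)⁻¹.mulVec ((rm M).mulVec x) = x := by
    intro x; rw [Matrix.mulVec_mulVec, hB1, Matrix.one_mulVec]
  have hT2 : ∀ x, (rm M).mulVec ((rm M)⁻¹.mulVec x) = x := by
    intro x; rw [Matrix.mulVec_mulVec, hB2, Matrix.one_mulVec]
  -- zero is not a ray
  have hz : (0 : Fin n → ℤ) ∉ pnL M := by
    intro h
    rcases Finset.mem_insert.mp h with h | h
    · have h1 : ∑ i, M i = 0 := by
        rw [← neg_eq_zero]; exact h.symm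
      refine hdet0 (Matrix.exists_vecMul_eq_zero_iff.mp ⟨fun _ => 1, ?_, ?_⟩)
      · intro h2
        have := congrFun h2 ⟨0, hn⟩
        simp at this
      · ext k
        have h2 := congrFun h1 k
        simpa [Matrix.vecMul, dotProduct] using h2
    · obtain ⟨i, _, hi⟩ := Finset.mem_image.mp h
      exact hdet0 (Matrix.det_eq_zero_of_row_eq_zero i fun j => by
        rw [Matrix.of_apply, hi]; rfl)
  have hP : polytope (pnL M) = (Matrix.toLin' (rm M)) ⁻¹' SS n := poly_eq M
  have himg : polytope (pnL M) = (fun y => (rm M)⁻¹.mulVec y) '' SS n := by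
    rw [hP]
    ext x
    simp only [Set.mem_preimage, Set.mem_image, Matrix.toLin'_apply]
    constructor
    · intro h
      exact ⟨_, h, hT1 x⟩
    · rintro ⟨y, hy, rfl⟩
      rw [hT2]; exact hy
  have hcomp : IsCompact (polytope (pnL M)) := by
    rw [himg]
    refine (SS_compact n).image ?_
    exact Continuous.matrix_mulVec continuous_const continuous_id
  refine ⟨hz, hcomp.isBounded, ?_, ?_⟩
  · -- barycentre
    have hcont : ∀ i, Continuous fun x : Fin n → ℝ => (rm M).mulVec x i := fun i =>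
      (continuous_apply i).comp (Continuous.matrix_mulVec continuous_const continuous_id)
    have hint : ∀ i, IntegrableOn (fun x : Fin n → ℝ => (rm M).mulVec x i) (polytope (pnL M)) :=
      fun i => (hcont i).continuousOn.integrableOn_compact hcomp
    have hkey : ∀ i, ∫ x in polytope (pnL M), (rm M).mulVec x i =
        -∑ j, ∫ x in polytope (pnL M), (rm M).mulVec x j := by
      intro i
      have h1 := int_involution
        ((Matrix.toLin' (rm M)⁻¹) ∘ₗ (PnAll.inv i) ∘ₗ (Matrix.toLin' (rm M)))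
        (fun x => by
          simp only [LinearMap.comp_apply, Matrix.toLin'_apply]
          rw [hT2, inv_inv', hT1])
        (polytope (pnL M))
        (fun x hx => by
          rw [hP] at hx ⊢
          simp only [Set.mem_preimage, LinearMap.comp_apply, Matrix.toLin'_apply] at hx ⊢
          rw [hT2]
          exact inv_SS i _ hx)
        (fun x => (rm M).mulVec x i)
      rw [← h1]
      simp only [LinearMap.comp_apply, Matrix.toLin'_apply]
      have h2 : ∀ x : Fin n → ℝ, (rm M).mulVec ((rm M)⁻¹.mulVec (PnAll.inv i ((rm M).mulVec x))) i =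
          -∑ j, (rm M).mulVec x j := by
        intro x
        rw [hT2, inv_apply, if_pos rfl]
      simp only [h2]
      rw [integral_neg, integral_finsetSum _ fun j _ => hint j]
    have hs : ∑ j, ∫ x in polytope (pnL M), (rm M).mulVec x j = 0 := by
      have h1 : ∑ i, ∫ x in polytope (pnL M), (rm M).mulVec x i =
          ∑ _i : Fin n, -∑ j, ∫ x in polytope (pnL M), (rm M).mulVec x j :=
        Finset.sum_congr rfl fun i _ => hkey i
      rw [Finset.sum_const, card_univ, Fintype.card_fin, nsmul_eq_mul] at h1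
      have hn0 : (0 : ℝ) ≤ n := Nat.cast_nonneg n
      nlinarith
    have hzero : ∀ j, ∫ x in polytope (pnL M), (rm M).mulVec x j = 0 := by
      intro j; rw [hkey j, hs, neg_zero]
    intro i
    have h3 : ∀ x : Fin n → ℝ, x i = ∑ j, (rm M)⁻¹ i j * (rm M).mulVec x j := by
      intro x
      have := congrFun (hT1 x) i
      rw [← this]
      rfl
    have h4 : ∫ x in polytope (pnL M), x i =
        ∫ x in polytope (pnL M), ∑ j, (rm M)⁻¹ i j * (rm M).mulVec x j := by
      congr 1
      funext x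
      exact h3 x
    rw [h4, integral_finsetSum _ fun j _ => (hint j).const_mul _]
    refine Finset.sum_eq_zero fun j _ => ?_
    rw [integral_const_mul, hzero j, mul_zero]
  · -- volume
    have hdT : LinearMap.det (Matrix.toLin' (rm M)) = (rm M).det := LinearMap.det_toLin' _
    have h1 : volume (polytope (pnL M)) = volume (SS n) := by
      rw [hP, Measure.addHaar_preimage_linearMap volume (by rw [hdT]; exact hne), hdT, abs_inv,
        habs]
      simp
    rw [Measure.real, h1, SS_vol, ENNReal.toReal_ofReal (by positivity)]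
    field_simp

end Pool.Agent.L5helper31.TG
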